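import Pool.Agent.H75.HV.LCR2
import Pool.Agent.H97.PRK.All

/-!
# MP_e37c09_lc, HV, row LCR: reflection of a positive class
-/

open Ordinal Cardinal Order Set
open scoped ZFSet

universe u

namespace Pool.Agent.H27.HV

open _root_.HD HD.PRK HD.HV

private lemma eqv_symm {F x y : ZFSet.{u}} {i : Ordinal.{u}} (h : Eqv F x y i) : Eqv F y x i :=
  fun a => (h a).symm

private lemma agv_symm {F x y : ZFSet.{u}} {i : Ordinal.{u}} (h : AgV F x y i) : AgV F y x i :=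
  fun k hk => eqv_symm (h k hk)

private lemma agv_trans {F x y z : ZFSet.{u}} {i : Ordinal.{u}} (h : AgV F x y i)
    (h' : AgV F y z i) : AgV F x z i :=
  fun k hk a => (h k hk a).trans (h' k hk a)

/-- the statement to which elementarity is applied; `m r F x n K d` -/
def LCR_RR (r : ZFSet.{u}) (v : ℕ → ZFSet.{u}) : Prop :=
  (r ∈ v 4 ∧ ¬ r = ∅ ∧ ∀ a ∈ r, ∃ b ∈ r, a ∈ b) ∧
  ((v 0).IsOrdinal ∧ r.IsOrdinal ∧ (v 3).IsOrdinal ∧
    PcV (v 0).rank r.rank (v 1) (v 2) (v 3).rank) ∧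
  ((v 0).IsOrdinal ∧ r.IsOrdinal ∧ (v 3).IsOrdinal ∧ (v 5).IsOrdinal ∧
    CnV (v 5).rank (v 0).rank r.rank (v 1) (v 3).rank)

theorem LCR_loc (h1 : T_LAV.{u}) (h2 : T_LCV.{u}) :
    Loc.{u} fun v => LCR_RR (v 0) (fun n => v (n + 1)) := by
  refine Loc.and ((Loc.mem 0 5).and ((loc_empty 0).not.and ?_)) (Loc.and ?_ ?_)
  · refine Loc.allMem (R := fun a v => ∃ b ∈ v 0, a ∈ b) 0 ?_
    exact Loc.exMem (R := fun b v => v 0 ∈ b) 1 (Loc.mem 1 0)
  · exact Loc.ren (P := fun v => (v 0).IsOrdinal ∧ (v 1).IsOrdinal ∧ (v 4).IsOrdinal ∧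
      PcV (v 0).rank (v 1).rank (v 2) (v 3) (v 4).rank) h1.2.2
      (fun n => if n = 0 then 1 else if n = 1 then 0 else if n = 2 then 2 else
        if n = 3 then 3 else 4)
  · exact Loc.ren (P := fun v => (v 0).IsOrdinal ∧ (v 1).IsOrdinal ∧ (v 3).IsOrdinal ∧
      (v 4).IsOrdinal ∧ CnV (v 4).rank (v 0).rank (v 1).rank (v 2) (v 3).rank) h2
      (fun n => if n = 0 then 1 else if n = 1 then 0 else if n = 2 then 2 else
        if n = 3 then 4 else 6)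

/-- the reflection, with a limit ordinal -/
theorem lcr2 (h1 : T_LAV.{u}) (h2 : T_LCV.{u}) : ∀ (δ η θ : Ordinal.{u}) j (K : Cardinal.{u})
    (μ ρ : Ordinal.{u}) F, SolX.{u} δ η θ j K μ ρ F → ∀ n < K.ord, HnV μ K F n →
    ∀ x ∈ V_ η, PcV μ K.ord F x n → ∃ ρ0 < K.ord, IsSuccLimit ρ0 ∧ PcV μ ρ0 F x n ∧
      CnV δ μ ρ0 F n := by
  intro δ η θ j K μ ρ F hS n hnK hH x hx hpos
  have he := hS.emb
  have hδη : δ < η := he.dlt
  have hnη : n < η := hnK.trans hS.kη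
  have hμη : μ < η := hS.mlt.trans hδη
  have hF := hS.fη
  -- transfer of the agreement
  have hAg : ∀ y z : ZFSet.{u}, y ∈ V_ η → z ∈ V_ η → AgV F y z n →
      AgV (j F) (j y) (j z) (Jo j n) := by
    intro y z hy hz h
    have h3 := (he.trl h1.2.1 [F, y, z, n.toZFSet] (by
      simp only [List.mem_cons, List.not_mem_nil, or_false, forall_eq_or_imp, forall_eq]
      exact ⟨hF, hy, hz, Gd.ord.2 hnη⟩)).1 (by
        simp only [sv_cons_zero, sv_cons_succ]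
        exact ⟨ZFSet.isOrdinal_toZFSet _, by rwa [rank_toZFSet]⟩)
    exact h3.2
  -- the ordinal ρ is small
  have hρle : ρ ≤ Jo j K.ord := by
    by_contra hlt
    push Not at hlt
    obtain ⟨y, hy, hxy⟩ := hS.r2 _ hlt
    exact absurd hxy (not_lt.2 ((he.le_iff (hy.trans hS.kη) hS.kη).2 hy.le))
  have hρθ : ρ < θ := lt_of_le_of_lt hρle (he.Jo_lt hS.kη)
  have hKJ : K.ord < Jo j K.ord :=
    (hS.kη.trans he.Jo_crit).trans_le ((he.le_iff hδη hS.kη).2 hS.dk.le)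
  have hρK : ρ < Jo j K.ord := by
    obtain ⟨K1, hK1, hK1e⟩ := HD.All.xd δ η θ j he K hS.kreg hS.kη
    rw [hK1e] at hKJ ⊢
    refine lt_of_le_of_ne (hK1e ▸ hρle) ?_
    intro hρe
    have hlt : K < K1 := Cardinal.ord_lt_ord.1 hKJ
    have hCI := Pool.Agent.H97.PRK.a_CI K1 hK1
      (lt_of_lt_of_le (lt_of_le_of_lt hS.kreg.1 hlt) le_rfl) K.ord hKJ
      (fun i => {b | Jo j i < b}) (fun i hi => ⟨fun a ha => ?_, ?_⟩)
    · obtain ⟨b, hb, -, hbC⟩ := hCI.1 0 (lt_of_le_of_lt zero_le hKJ)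
      obtain ⟨y, hy, hby⟩ := hS.r2 b (hρe ▸ hb)
      exact absurd (hbC y hy) (not_lt.2 hby.le)
    · refine ⟨succ (max a (Jo j i)), ?_, ?_, ?_⟩
      · refine (Cardinal.isSuccLimit_ord hK1.1).succ_lt (max_lt ha ?_)
        rw [← hK1e]
        exact (he.lt_iff (hi.trans hS.kη) hS.kη).2 hi
      · exact Order.lt_succ_of_le (le_max_left _ _)
      · show Jo j i < succ (max a (Jo j i))
        exact Order.lt_succ_of_le (le_max_right _ _)
    · intro y _ hy0 h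
      obtain ⟨z, hz, -, hz2⟩ := h 0 hy0
      exact lt_trans hz2 hz
  have hρlim : IsSuccLimit ρ := by
    refine ⟨?_, ?_⟩
    · intro hmin
      have h0 : Jo j 0 < ρ := hS.r1 0 (lt_of_le_of_lt zero_le hnK)
      exact absurd (hmin zero_le) (not_le.2 (lt_of_le_of_lt zero_le h0))
    · rw [Order.isSuccPrelimit_iff_succ_lt]
      intro y hy
      obtain ⟨z, hz, hyz⟩ := hS.r2 y hy
      exact lt_of_le_of_lt (Order.succ_le_of_lt hyz) (hS.r1 z hz)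
  -- the representatives
  obtain ⟨ν, hν, g, hg⟩ := hH
  unfold PosX at hg
  push Not at hg
  obtain ⟨C, hC, hCg⟩ := hg
  have hSJ1 := Pool.Agent.H97.PRK.a_SJ1 δ η θ j K μ ρ F hS
  obtain ⟨E0, hE0, hE0y⟩ := Pool.Agent.H97.PRK.a_SJ2 δ η θ j K μ ρ F hS C hC
  classical
  have htr := (he.trl_ex (LCR_loc h1 h2)
    [μ.toZFSet, F, x, n.toZFSet, K.ord.toZFSet, δ.toZFSet] (by
      simp only [List.mem_cons, List.not_mem_nil, or_false, forall_eq_or_imp, forall_eq]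
      exact ⟨Gd.ord.2 hμη, hF, hx, Gd.ord.2 hnη, Gd.ord.2 hS.kη, Gd.ord.2 hδη⟩)).2 ?_
  · obtain ⟨r, -, ⟨hrK, hr0, hrl⟩, ⟨-, -, -, hp⟩, ⟨-, hro, -, -, hc⟩⟩ := htr
    simp only [sv_cons_zero, sv_cons_succ, rank_toZFSet] at hp hc hrK
    have hre : r.rank.toZFSet = r := hro.toZFSet_rank_eq
    refine ⟨r.rank, ?_, ⟨?_, ?_⟩, hp, hc⟩
    · rw [← hre, toZFSet_mem_toZFSet_iff] at hrK
      exact hrK
    · intro hmin
      apply hr0
      have h0 : r.rank = 0 := le_antisymm (hmin zero_le) zero_le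
      rw [← hre, h0, toZFSet_zero]
    · rw [Order.isSuccPrelimit_iff_succ_lt]
      intro a ha
      obtain ⟨b, hb, hab⟩ := hrl a.toZFSet (by rw [← hre]; exact toZFSet_mem_toZFSet_iff.2 ha)
      rw [← hre] at hb
      obtain ⟨b', hb', rfl⟩ := mem_toZFSet_iff.1 hb
      exact lt_of_le_of_lt (Order.succ_le_of_lt (toZFSet_mem_toZFSet_iff.1 hab)) hb'
  · refine ⟨ρ.toZFSet, Gd.ord.2 hρθ, ?_⟩
    show LCR_RR ρ.toZFSet (sv [j μ.toZFSet, j F, j x, j n.toZFSet, j K.ord.toZFSet, j δ.toZFSet])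
    rw [he.fix μ hS.mlt, he.ord hnη, he.ord hS.kη, he.ord hδη]
    refine ⟨⟨?_, ?_, ?_⟩, ⟨ZFSet.isOrdinal_toZFSet _, ZFSet.isOrdinal_toZFSet _,
      ZFSet.isOrdinal_toZFSet _, ?_⟩, ⟨ZFSet.isOrdinal_toZFSet _, ZFSet.isOrdinal_toZFSet _,
      ZFSet.isOrdinal_toZFSet _, ZFSet.isOrdinal_toZFSet _, ?_⟩⟩
    · exact toZFSet_mem_toZFSet_iff.2 hρK
    · intro h0
      have h3 : (Jo j 0).toZFSet ∈ ρ.toZFSet :=
        toZFSet_mem_toZFSet_iff.2 (hS.r1 0 (lt_of_le_of_lt zero_le hnK))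
      rw [h0] at h3
      exact ZFSet.notMem_empty _ h3
    · intro a ha
      obtain ⟨a', ha', rfl⟩ := mem_toZFSet_iff.1 ha
      exact ⟨(succ a').toZFSet, toZFSet_mem_toZFSet_iff.2 (hρlim.succ_lt ha'),
        toZFSet_mem_toZFSet_iff.2 (Order.lt_succ a')⟩
    · simp only [sv_cons_zero, sv_cons_succ, rank_toZFSet]
      intro E hE
      obtain ⟨C', hC', hC'2⟩ := hSJ1 E hE
      obtain ⟨y, hy, hya⟩ := hpos C' hC'
      obtain ⟨hyη, hyE⟩ := hC'2 y hy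
      exact ⟨j y, hyE, hAg y x hyη hx hya⟩
    · simp only [sv_cons_zero, sv_cons_succ, rank_toZFSet]
      refine ⟨ν.ord, ?_, fun i => if h : ∃ y ∈ V_ η, AgV F y (g i) n then j h.choose else ∅, ?_⟩
      · exact ((Cardinal.ord_lt_ord.2 hν).trans hS.kη).trans he.Jo_crit
      · intro x1 _ hx1
        obtain ⟨y, hy, hya⟩ := hx1 E0 hE0
        obtain ⟨x0, hx0, hx0η, rfl⟩ := hE0y y hy
        obtain ⟨i, hi, hai⟩ := hCg x0 hx0
        have hex : ∃ y ∈ V_ η, AgV F y (g i) n := ⟨x0, hx0η, hai⟩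
        refine ⟨i, hi, ?_⟩
        show AgV (j F) x1 (if h : ∃ y ∈ V_ η, AgV F y (g i) n then j h.choose else ∅) (Jo j n)
        rw [dif_pos hex]
        obtain ⟨hyη, hyg⟩ := hex.choose_spec
        exact agv_trans (agv_symm hya) (hAg x0 _ hx0η hyη (agv_trans hai (agv_symm hyg)))

theorem pf_LCR2 (h1 : T_LAV.{u}) (h2 : T_LCV.{u}) : Pool.Agent.H75.HV.T_LCR2.{u} :=
  lcr2 h1 h2

theorem pf_LCR (h1 : T_LAV.{u}) (h2 : T_LCV.{u}) : T_LCR.{u} := by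
  intro δ η θ j K μ ρ F hS n hn hH x hx hp
  obtain ⟨ρ0, h3, -, h4, h5⟩ := lcr2 h1 h2 δ η θ j K μ ρ F hS n hn hH x hx hp
  exact ⟨ρ0, h3, h4, h5⟩

end Pool.Agent.H27.HV
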